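import Mathlib

namespace Pool.Agent.Lib.MP_79490a_al

/-- An algebra of type (2,0). -/
structure Alg where
  carrier : Type
  imp : carrier → carrier → carrier
  zero : carrier

/-- Terms of type (2,0) in countably many variables. -/
inductive Term where
  | var : ℕ → Term
  | zero : Term
  | imp : Term → Term → Term

/-- Value of a term in an algebra under an assignment of the variables. -/
def Term.eval (A : Alg) (v : ℕ → A.carrier) : Term → A.carrier
  | .var i => v i
  | .zero => A.zero
  | .imp s t => A.imp (s.eval A v) (t.eval A v)

/-- The algebra `A` satisfies the identity `e.1 ≈ e.2`. -/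
def Alg.Sat (A : Alg) (e : Term × Term) : Prop :=
  ∀ v : ℕ → A.carrier, e.1.eval A v = e.2.eval A v

/-- A variety: the class of all algebras satisfying some set of identities. -/
def IsVariety (V : Set Alg) : Prop :=
  ∃ E : Set (Term × Term), V = {A | ∀ e ∈ E, A.Sat e}

/-- The variety generated by a class: the intersection of all varieties containing it. -/
def generated (K : Set Alg) : Set Alg :=
  ⋂₀ {V | IsVariety V ∧ K ⊆ V}

/-- `u' = u → 0`. -/
def Alg.neg (A : Alg) (u : A.carrier) : A.carrier := A.imp u A.zero

/-- The class of implication zroupoids. -/
def IZ : Set Alg :=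
  {A | (∀ x y z : A.carrier,
        A.imp (A.imp x y) z = A.neg (A.imp (A.imp (A.neg z) x) (A.neg (A.imp y z)))) ∧
      A.neg (A.neg A.zero) = A.zero}

/-- Lattice terms in countably many variables. -/
inductive LTerm where
  | var : ℕ → LTerm
  | sup : LTerm → LTerm → LTerm
  | inf : LTerm → LTerm → LTerm

/-- Value of a lattice term for given join and meet operations and a given assignment. -/
def LTerm.eval {L : Type*} (join meet : L → L → L) (a : ℕ → L) : LTerm → L
  | .var i => a i
  | .sup p q => join (p.eval join meet a) (q.eval join meet a)
  | .inf p q => meet (p.eval join meet a) (q.eval join meet a)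

end Pool.Agent.Lib.MP_79490a_al
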