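import Mathlib
import Pool.Agent.Lib.MP_79490a_al.Defs

namespace Pool.Agent.Lib.MP_79490a_al

universe u

/-! ### Lattice-valued ultrametrics -/

structure UM (K : Type u) [Lattice K] [OrderBot K] (X : Type) where
  d : X → X → K
  refl : ∀ x, d x x = ⊥
  symm : ∀ x y, d x y = d y x
  tri : ∀ x y z, d x z ≤ d x y ⊔ d y z

section UM
variable {K : Type u} [Lattice K] [OrderBot K]

/-- The dual value of a lattice term. -/
def dval (a : ℕ → K) (p : LTerm) : K := p.eval (fun x y => x ⊓ y) (fun x y => x ⊔ y) a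

def Holds {X : Type} (D : UM K X) (a : ℕ → K) : LTerm → X → X → Prop
  | .var i, x, y => D.d x y ≤ a i
  | .sup p q, x, y => Holds D a p x y ∧ Holds D a q x y
  | .inf p q, x, y => ∃ u v w, Holds D a p x u ∧ Holds D a q u v ∧ Holds D a p v w ∧ Holds D a q w y

theorem Holds.map {X Y : Type} {D : UM K X} {E : UM K Y} (f : X → Y)
    (hf : ∀ u v, E.d (f u) (f v) = D.d u v) (a : ℕ → K) :
    ∀ (p : LTerm) (x y : X), Holds D a p x y → Holds E a p (f x) (f y)
  | .var i, x, y, h => by simpa [Holds, hf] using h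
  | .sup p q, x, y, h => ⟨Holds.map f hf a p x y h.1, Holds.map f hf a q x y h.2⟩
  | .inf p q, x, y, ⟨u, v, w, h1, h2, h3, h4⟩ =>
      ⟨f u, f v, f w, Holds.map f hf a p _ _ h1, Holds.map f hf a q _ _ h2,
        Holds.map f hf a p _ _ h3, Holds.map f hf a q _ _ h4⟩

inductive Ext (X : Type) where
  | old : X → Ext X
  | u : Ext X
  | v : Ext X
  | w : Ext X

instance {X : Type} [Countable X] : Countable (Ext X) := by
  let f : Ext X → X ⊕ ℕ := fun z => match z with
    | .old x => Sum.inl x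
    | .u => Sum.inr 0
    | .v => Sum.inr 1
    | .w => Sum.inr 2
  have hf : Function.Injective f := by
    intro s t h
    cases s <;> cases t <;> simp_all [f]
  exact hf.countable

def extd {X : Type} (D : UM K X) (x y : X) (A B : K) : Ext X → Ext X → K
  | .old s, .old t => D.d s t
  | .old s, .u => D.d s x ⊔ A
  | .old s, .v => D.d s x ⊔ (A ⊔ B)
  | .old s, .w => D.d s y ⊔ B
  | .u, .old s => D.d s x ⊔ A
  | .v, .old s => D.d s x ⊔ (A ⊔ B)
  | .w, .old s => D.d s y ⊔ B
  | .u, .u => ⊥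
  | .v, .v => ⊥
  | .w, .w => ⊥
  | .u, .v => B
  | .v, .u => B
  | .v, .w => A
  | .w, .v => A
  | .u, .w => A ⊔ B
  | .w, .u => A ⊔ B

theorem extd_tri {X : Type} (D : UM K X) (x y : X) (A B : K) (h : D.d x y ≤ A ⊔ B)
    (r s t : Ext X) : extd D x y A B r t ≤ extd D x y A B r s ⊔ extd D x y A B s t := by
  have key : ∀ c : K, extd D x y A B r s ≤ c → extd D x y A B s t ≤ c →
      extd D x y A B r t ≤ c := by
    intro c
    have T : ∀ i j k, D.d i j ≤ c → D.d j k ≤ c → D.d i k ≤ c := fun i j k h1 h2 =>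
      (D.tri i j k).trans (sup_le h1 h2)
    have S : ∀ i j, D.d i j ≤ c → D.d j i ≤ c := fun i j h1 => (D.symm j i).le.trans h1
    have H : A ≤ c → B ≤ c → D.d x y ≤ c := fun h1 h2 => h.trans (sup_le h1 h2)
    cases r <;> cases s <;> cases t <;> simp only [extd, sup_le_iff, bot_le] <;> grind
  exact key _ le_sup_left le_sup_right

def extUM {X : Type} (D : UM K X) (x y : X) (A B : K) (h : D.d x y ≤ A ⊔ B) : UM K (Ext X) where
  d := extd D x y A B
  refl := by
    intro s
    cases s <;> simp [extd, D.refl]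
  symm := by
    intro s t
    cases s <;> cases t <;> simp [extd, D.symm]
  tri := extd_tri D x y A B h

theorem extension (a : ℕ → K) : ∀ (p : LTerm) (X : Type) [Countable X] (D : UM K X) (x y : X),
    D.d x y ≤ dval a p →
    ∃ (Y : Type) (_ : Countable Y) (E : UM K Y) (f : X → Y),
      (∀ u v, E.d (f u) (f v) = D.d u v) ∧ Holds E a p (f x) (f y)
  | .var i, X, _, D, x, y, h => ⟨X, inferInstance, D, id, fun _ _ => rfl, h⟩
  | .sup p q, X, _, D, x, y, h => by
      have h1 : D.d x y ≤ dval a p := h.trans inf_le_left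
      have h2 : D.d x y ≤ dval a q := h.trans inf_le_right
      obtain ⟨Y, _, E, f, hf, hp⟩ := extension a p X D x y h1
      obtain ⟨Z, _, F, g, hg, hq⟩ := extension a q Y E (f x) (f y) (by rw [hf]; exact h2)
      exact ⟨Z, inferInstance, F, g ∘ f, fun u v => by simp [hg, hf],
        Holds.map g hg a p _ _ hp, hq⟩
  | .inf p q, X, _, D, x, y, h => by
      let D0 := extUM D x y (dval a p) (dval a q) h
      obtain ⟨Y1, _, E1, f1, hf1, hp1⟩ := extension a p _ D0 (.old x) .u
        (by simp [D0, extUM, extd, D.refl])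
      obtain ⟨Y2, _, E2, f2, hf2, hp2⟩ := extension a q _ E1 (f1 .u) (f1 .v)
        (by rw [hf1]; simp [D0, extUM, extd])
      obtain ⟨Y3, _, E3, f3, hf3, hp3⟩ := extension a p _ E2 (f2 (f1 .v)) (f2 (f1 .w))
        (by rw [hf2, hf1]; simp [D0, extUM, extd])
      obtain ⟨Y4, _, E4, f4, hf4, hp4⟩ := extension a q _ E3 (f3 (f2 (f1 .w)))
        (f3 (f2 (f1 (.old y))))
        (by rw [hf3, hf2, hf1]; simp [D0, extUM, extd, D.refl])
      refine ⟨Y4, inferInstance, E4, fun s => f4 (f3 (f2 (f1 (.old s)))), fun s t => ?_,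
        f4 (f3 (f2 (f1 .u))), f4 (f3 (f2 (f1 .v))), f4 (f3 (f2 (f1 .w))), ?_, ?_, ?_, hp4⟩
      · rw [hf4, hf3, hf2, hf1]; rfl
      · exact Holds.map f4 hf4 a p _ _ (Holds.map f3 hf3 a p _ _ (Holds.map f2 hf2 a p _ _ hp1))
      · exact Holds.map f4 hf4 a q _ _ (Holds.map f3 hf3 a q _ _ hp2)
      · exact Holds.map f4 hf4 a p _ _ hp3

end UM

/-! ### The test algebras -/

inductive El (Q : Type) where
  | zero : El Q
  | x : El Q
  | y : El Q
  | Y : ℕ → El Q
  | top : Q → El Q

def El.mul {Q : Type} (g : ℕ → Q) : El Q → El Q → El Q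
  | .y, .x => .Y 0
  | .y, .Y k => .Y (k + 1)
  | .x, .Y k => .top (g k)
  | _, _ => .zero

abbrev B {Q : Type} (g : ℕ → Q) : Alg where
  carrier := El Q
  imp := El.mul g
  zero := .zero

theorem mul_zero' {Q : Type} (g : ℕ → Q) (s : El Q) : El.mul g s .zero = .zero := by
  cases s <;> rfl

theorem mul_mul {Q : Type} (g : ℕ → Q) (r s t : El Q) : El.mul g (El.mul g r s) t = .zero := by
  cases r <;> cases s <;> cases t <;> rfl

theorem B_mem_IZ {Q : Type} (g : ℕ → Q) : B g ∈ IZ := by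
  refine ⟨fun r s t => ?_, rfl⟩
  show El.mul g (El.mul g r s) t = El.mul g _ .zero
  rw [mul_mul, mul_zero']

def El.map {Q Q' : Type} (φ : Q → Q') : El Q → El Q'
  | .zero => .zero
  | .x => .x
  | .y => .y
  | .Y k => .Y k
  | .top q => .top (φ q)

theorem El.map_mul {Q Q' : Type} (φ : Q → Q') (g : ℕ → Q) (s t : El Q) :
    El.map φ (El.mul g s t) = El.mul (φ ∘ g) (El.map φ s) (El.map φ t) := by
  cases s <;> cases t <;> rfl

theorem eval_map {Q Q' : Type} (φ : Q → Q') (g : ℕ → Q) (v : ℕ → El Q) :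
    ∀ t : Term, El.map φ (t.eval (B g) v) = t.eval (B (φ ∘ g)) (fun i => El.map φ (v i))
  | .var _ => rfl
  | .zero => rfl
  | .imp s t => by
      show El.map φ (El.mul g _ _) = El.mul (φ ∘ g) _ _
      rw [El.map_mul, eval_map φ g v s, eval_map φ g v t]

theorem sat_of_surj {Q Q' : Type} (φ : Q → Q') (hφ : Function.Surjective φ) (g : ℕ → Q)
    (e : Term × Term) (h : (B g).Sat e) : (B (φ ∘ g)).Sat e := by
  intro v
  have hs : Function.Surjective (El.map φ) := by
    intro s
    cases s with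
    | zero => exact ⟨.zero, rfl⟩
    | x => exact ⟨.x, rfl⟩
    | y => exact ⟨.y, rfl⟩
    | Y k => exact ⟨.Y k, rfl⟩
    | top q => obtain ⟨q, rfl⟩ := hφ q; exact ⟨.top q, rfl⟩
  choose w hw using fun i => hs (v i)
  have hv : v = fun i => El.map φ (w i) := funext fun i => (hw i).symm
  rw [hv, ← eval_map, ← eval_map, h w]

theorem sat_of_inj {Q Q1 Q2 : Type} (φ : Q → Q1) (ψ : Q → Q2)
    (hinj : ∀ q q', φ q = φ q' → ψ q = ψ q' → q = q') (g : ℕ → Q)
    (e : Term × Term) (h1 : (B (φ ∘ g)).Sat e) (h2 : (B (ψ ∘ g)).Sat e) : (B g).Sat e := by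
  intro v
  have k1 := h1 (fun i => El.map φ (v i))
  have k2 := h2 (fun i => El.map ψ (v i))
  rw [← eval_map, ← eval_map] at k1 k2
  revert k1 k2
  generalize e.1.eval (B g) v = s
  generalize e.2.eval (B g) v = t
  intro k1 k2
  cases s <;> cases t <;> simp only [El.map, reduceCtorEq, El.Y.injEq, El.top.injEq] at k1 k2 <;>
    first
    | rfl
    | exact congrArg _ k1
    | exact congrArg _ (hinj _ _ k1 k2)

/-- `y → (y → ⋯ (y → x))` with `k+1` letters `y`. -/
def ys : ℕ → Term
  | 0 => .imp (.var 1) (.var 0)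
  | k + 1 => .imp (.var 1) (ys k)

def word (k : ℕ) : Term := .imp (.var 0) (ys k)

theorem ys_eval {Q : Type} (g : ℕ → Q) (v : ℕ → El Q) (k : ℕ) :
    (v 0 = .x ∧ v 1 = .y ∧ (ys k).eval (B g) v = .Y k) ∨
      (¬ (v 0 = .x ∧ v 1 = .y) ∧ El.mul g (v 0) ((ys k).eval (B g) v) = .zero ∧
        (v 0 = .x ∨ v 0 = .y → (ys k).eval (B g) v = .zero)) := by
  induction k with
  | zero =>
      have : (ys 0).eval (B g) v = El.mul g (v 1) (v 0) := rfl
      rw [this]
      cases h0 : v 0 <;> cases h1 : v 1 <;> simp [El.mul]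
  | succ k ih =>
      have : (ys (k + 1)).eval (B g) v = El.mul g (v 1) ((ys k).eval (B g) v) := rfl
      rw [this]
      rcases ih with ⟨h0, h1, h2⟩ | ⟨h0, h1, h2⟩
      · left
        exact ⟨h0, h1, by rw [h1, h2]; rfl⟩
      · right
        refine ⟨h0, ?_, fun h => by rw [h2 h, mul_zero']⟩
        by_cases h : v 0 = .x ∨ v 0 = .y
        · rw [h2 h, mul_zero', mul_zero']
        · revert h
          generalize El.mul g (v 1) _ = s
          cases v 0 <;> cases s <;> simp [El.mul]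

theorem word_sat {Q : Type} (g : ℕ → Q) (i j : ℕ) :
    (B g).Sat (word i, word j) ↔ g i = g j := by
  have ev : ∀ (v : ℕ → El Q) k, (word k).eval (B g) v =
      El.mul g (v 0) ((ys k).eval (B g) v) := fun _ _ => rfl
  constructor
  · intro h
    let v : ℕ → El Q := fun n => if n = 0 then .x else .y
    have h' := h v
    simp only [ev] at h'
    have h0 : v 0 = .x := rfl
    have h1 : v 1 = .y := rfl
    rcases ys_eval g v i with ⟨_, _, hi⟩ | ⟨hi, _⟩
    · rcases ys_eval g v j with ⟨_, _, hj⟩ | ⟨hj, _⟩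
      · rw [hi, hj, h0] at h'
        simpa [El.mul] using h'
      · exact absurd ⟨h0, h1⟩ hj
    · exact absurd ⟨h0, h1⟩ hi
  · intro h v
    simp only [ev]
    rcases ys_eval g v i with ⟨h0, h1, hi⟩ | ⟨hi, hi', _⟩
    · rcases ys_eval g v j with ⟨_, _, hj⟩ | ⟨hj, _⟩
      · rw [hi, hj, h0]
        simp [El.mul, h]
      · exact absurd ⟨h0, h1⟩ hj
    · rcases ys_eval g v j with ⟨h0, h1, _⟩ | ⟨_, hj, _⟩
      · exact absurd ⟨h0, h1⟩ hi
      · rw [hi', hj]

/-! ### Varieties -/

theorem isVariety_single (e : Term × Term) : IsVariety {A | A.Sat e} :=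
  ⟨{e}, by ext A; simp⟩

theorem mem_generated {K : Set Alg} {A : Alg} :
    A ∈ generated K ↔ ∀ e, (∀ C ∈ K, C.Sat e) → A.Sat e := by
  constructor
  · intro h e he
    exact h {A | A.Sat e} ⟨isVariety_single e, he⟩
  · rintro h V ⟨⟨E, rfl⟩, hK⟩ e he
    exact h e fun C hC => hK hC e he

theorem isVariety_generated (K : Set Alg) : IsVariety (generated K) :=
  ⟨{e | ∀ C ∈ K, C.Sat e}, by ext A; exact mem_generated⟩

theorem IsVariety.inter {V W : Set Alg} (hV : IsVariety V) (hW : IsVariety W) :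
    IsVariety (V ∩ W) := by
  obtain ⟨E, rfl⟩ := hV
  obtain ⟨F, rfl⟩ := hW
  refine ⟨E ∪ F, ?_⟩
  ext A
  simp only [Set.mem_inter_iff, Set.mem_ofPred_eq, Set.mem_union, or_imp, forall_and]

theorem isVariety_IZ : IsVariety IZ := by
  let x := Term.var 0
  let y := Term.var 1
  let z := Term.var 2
  let n : Term → Term := fun t => .imp t .zero
  refine ⟨{(.imp (.imp x y) z, n (.imp (.imp (n z) x) (n (.imp y z)))),
    (n (n .zero), .zero)}, ?_⟩
  ext A
  simp only [IZ, Set.mem_ofPred_eq, Set.mem_insert_iff, Set.mem_singleton_iff, forall_eq_or_imp,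
    forall_eq]
  constructor
  · rintro ⟨h1, h2⟩
    exact ⟨fun v => h1 (v 0) (v 1) (v 2), fun _ => h2⟩
  · rintro ⟨h1, h2⟩
    exact ⟨fun a b c => h1 (fun i => if i = 0 then a else if i = 1 then b else c),
      h2 (fun _ => A.zero)⟩

/-- Value of a lattice term in the lattice of varieties. -/
def vval (V : ℕ → Set Alg) (p : LTerm) : Set Alg :=
  p.eval (fun V W => generated (V ∪ W)) (fun V W => V ∩ W) V

theorem isVariety_vval (V : ℕ → Set Alg) (hV : ∀ i, IsVariety (V i)) :
    ∀ p, IsVariety (vval V p)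
  | .var i => hV i
  | .sup _ _ => isVariety_generated _
  | .inf p q => (isVariety_vval V hV p).inter (isVariety_vval V hV q)

section Main
variable {K : Type u} [Lattice K] [OrderBot K]

def UM.rel (D : UM K ℕ) (c : K) : Setoid ℕ where
  r i j := D.d i j ≤ c
  iseqv := ⟨fun i => by rw [D.refl]; exact bot_le, fun {i j} h => by rw [D.symm]; exact h,
    fun {i j k} h1 h2 => (D.tri i j k).trans (sup_le h1 h2)⟩

def UM.alg (D : UM K ℕ) (c : K) : Alg := B (Quotient.mk (D.rel c))

def UM.proj (D : UM K ℕ) {c c' : K} (h : c ≤ c') : Quotient (D.rel c) → Quotient (D.rel c') :=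
  Quotient.map' id fun _ _ hij => le_trans hij h

theorem UM.alg_eq (D : UM K ℕ) {c c' : K} (h : c ≤ c') :
    D.alg c' = B (D.proj h ∘ Quotient.mk (D.rel c)) := rfl

theorem UM.sat_mono (D : UM K ℕ) {c c' : K} (h : c ≤ c') (e : Term × Term)
    (he : (D.alg c).Sat e) : (D.alg c').Sat e := by
  rw [D.alg_eq h]
  refine sat_of_surj _ ?_ _ e he
  intro q
  induction q using Quotient.inductionOn with
  | h i => exact ⟨Quotient.mk _ i, rfl⟩

theorem UM.sat_inf (D : UM K ℕ) (c c' : K) (e : Term × Term)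
    (h1 : (D.alg c).Sat e) (h2 : (D.alg c').Sat e) : (D.alg (c ⊓ c')).Sat e := by
  rw [D.alg_eq (inf_le_left : c ⊓ c' ≤ c)] at h1
  rw [D.alg_eq (inf_le_right : c ⊓ c' ≤ c')] at h2
  refine sat_of_inj _ _ ?_ _ e h1 h2
  intro q q'
  induction q using Quotient.inductionOn with
  | h i =>
    induction q' using Quotient.inductionOn with
    | h j =>
      intro k1 k2
      have k1' : D.d i j ≤ c := Quotient.exact k1
      have k2' : D.d i j ≤ c' := Quotient.exact k2
      exact Quotient.sound (le_inf k1' k2')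

theorem UM.word_sat (D : UM K ℕ) (c : K) (i j : ℕ) :
    (D.alg c).Sat (word i, word j) ↔ D.d i j ≤ c := by
  rw [UM.alg, MP_79490a_al.word_sat]
  exact Quotient.eq

def UM.vars (D : UM K ℕ) (a : ℕ → K) (i : ℕ) : Set Alg := generated {D.alg (a i)}

theorem UM.upper (D : UM K ℕ) (a : ℕ → K) : ∀ q : LTerm, D.alg (dval a q) ∈ vval (D.vars a) q
  | .var i => mem_generated.2 fun e he => he _ rfl
  | .sup p q => mem_generated.2 fun e he =>
      D.sat_inf _ _ e (he _ (Or.inl (D.upper a p))) (he _ (Or.inr (D.upper a q)))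
  | .inf p q => by
      have hv := isVariety_vval (D.vars a) (fun _ => isVariety_generated _)
      constructor
      · have := D.upper a p
        obtain ⟨E, hE⟩ := hv p
        change _ ∈ vval (D.vars a) p
        rw [hE] at this ⊢
        exact fun e he => D.sat_mono le_sup_left e (this e he)
      · have := D.upper a q
        obtain ⟨E, hE⟩ := hv q
        change _ ∈ vval (D.vars a) q
        rw [hE] at this ⊢
        exact fun e he => D.sat_mono le_sup_right e (this e he)

theorem UM.lower (D : UM K ℕ) (a : ℕ → K) : ∀ (p : LTerm) (i j : ℕ), Holds D a p i j →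
    ∀ A ∈ vval (D.vars a) p, A.Sat (word i, word j)
  | .var k, i, j, h, A, hA => mem_generated.1 hA _ fun C hC => by
      rw [Set.mem_singleton_iff.1 hC]
      exact (D.word_sat _ i j).2 h
  | .sup p q, i, j, h, A, hA => mem_generated.1 hA _ fun C hC => by
      rcases hC with hC | hC
      · exact D.lower a p i j h.1 C hC
      · exact D.lower a q i j h.2 C hC
  | .inf p q, i, j, ⟨u, v, w, h1, h2, h3, h4⟩, A, hA => fun z =>
      (D.lower a p _ _ h1 A hA.1 z).trans ((D.lower a q _ _ h2 A hA.2 z).trans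
        ((D.lower a p _ _ h3 A hA.1 z).trans (D.lower a q _ _ h4 A hA.2 z)))

theorem Holds.pull {X Y : Type} (E : UM K Y) (D : UM K X) (s : X → Y) (hs : Function.Surjective s)
    (hd : ∀ i j, D.d i j = E.d (s i) (s j)) (a : ℕ → K) (p : LTerm) (i j : X)
    (h : Holds E a p (s i) (s j)) : Holds D a p i j := by
  induction p generalizing i j with
  | var k => simpa [Holds, hd] using h
  | sup p q ihp ihq => exact ⟨ihp _ _ h.1, ihq _ _ h.2⟩
  | inf p q ihp ihq =>
      obtain ⟨u, v, w, h1, h2, h3, h4⟩ := h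
      obtain ⟨u, rfl⟩ := hs u
      obtain ⟨v, rfl⟩ := hs v
      obtain ⟨w, rfl⟩ := hs w
      exact ⟨u, v, w, ihp _ _ h1, ihq _ _ h2, ihp _ _ h3, ihq _ _ h4⟩

theorem dval_le (p q : LTerm)
    (h : ∀ V : ℕ → Set Alg, (∀ i, IsVariety (V i) ∧ V i ⊆ IZ) → vval V q ⊆ vval V p)
    (a : ℕ → K) : dval a p ≤ dval a q := by
  let D0 : UM K Bool :=
    { d := fun s t => if s = t then ⊥ else dval a p
      refl := by simp
      symm := by intro s t; cases s <;> cases t <;> simp
      tri := by intro r s t; cases r <;> cases s <;> cases t <;> simp }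
  obtain ⟨Y, _, E, f, hf, hp⟩ := extension a p Bool D0 true false (by simp [D0])
  have : Nonempty Y := ⟨f true⟩
  obtain ⟨s, hs⟩ := exists_surjective_nat Y
  let D : UM K ℕ :=
    { d := fun i j => E.d (s i) (s j)
      refl := fun i => E.refl _
      symm := fun i j => E.symm _ _
      tri := fun i j k => E.tri _ _ _ }
  obtain ⟨i, hi⟩ := hs (f true)
  obtain ⟨j, hj⟩ := hs (f false)
  have hH : Holds D a p i j := Holds.pull E D s hs (fun _ _ => rfl) a p i j (by rw [hi, hj]; exact hp)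
  have hV : ∀ k, IsVariety (D.vars a k) ∧ D.vars a k ⊆ IZ := fun k =>
    ⟨isVariety_generated _, fun A hA => hA IZ ⟨isVariety_IZ, by
      rintro C rfl
      exact B_mem_IZ _⟩⟩
  have h1 := D.lower a p i j hH _ (h _ hV (D.upper a q))
  have h2 := (D.word_sat _ i j).1 h1
  have h3 : D.d i j = dval a p := by
    show E.d (s i) (s j) = _
    rw [hi, hj, hf]
    simp [D0]
  rwa [h3] at h2

end Main

theorem dval_coe {L : Type u} [Lattice L] (a : ℕ → L) : ∀ p : LTerm,
    dval (fun i => ((OrderDual.toDual (a i) : Lᵒᵈ) : WithBot Lᵒᵈ)) p =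
      ((OrderDual.toDual (p.eval (fun x y => x ⊔ y) (fun x y => x ⊓ y) a) : Lᵒᵈ) : WithBot Lᵒᵈ)
  | .var _ => rfl
  | .sup p q => by
      show dval _ p ⊓ dval _ q = _
      rw [dval_coe a p, dval_coe a q, ← WithBot.coe_inf]
      rfl
  | .inf p q => by
      show dval _ p ⊔ dval _ q = _
      rw [dval_coe a p, dval_coe a q, ← WithBot.coe_sup]
      rfl

theorem main (p q : LTerm)
    (h : ∀ V : ℕ → Set Alg, (∀ i, IsVariety (V i) ∧ V i ⊆ IZ) → vval V p = vval V q)
    (L : Type u) [Lattice L] (a : ℕ → L) :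
    p.eval (fun x y => x ⊔ y) (fun x y => x ⊓ y) a =
      q.eval (fun x y => x ⊔ y) (fun x y => x ⊓ y) a := by
  have h1 := dval_le p q (fun V hV => (h V hV).ge)
    (fun i => ((OrderDual.toDual (a i) : Lᵒᵈ) : WithBot Lᵒᵈ))
  have h2 := dval_le q p (fun V hV => (h V hV).le)
    (fun i => ((OrderDual.toDual (a i) : Lᵒᵈ) : WithBot Lᵒᵈ))
  have h3 := le_antisymm h1 h2
  rw [dval_coe, dval_coe] at h3
  exact OrderDual.toDual.injective (WithBot.coe_injective h3)

end Pool.Agent.Lib.MP_79490a_al
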